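import Pool.Agent.Q197.WN.TotB

/-!
# Windows of length `1 + φ(n)` after `n ^ 2`: the exact entropy price of the exceptions, for all random sets
-/

set_option autoImplicit false

namespace Pool.Agent.Results.MP_36c81c_nt.FailureBudget

open Finset Filter Pool.Agent.Q197.WN Pool.Agent.Q120.CL Pool.Agent.Q120.ET
open scoped Topology

/-- The integers in `(n ^ 2, n ^ 2 + 1 + φ(n)]`. -/
def W (n : ℕ) : Finset ℕ := Ioc (n ^ 2) (n ^ 2 + 1 + Nat.totient n)

open Classical in
/-- The number of the elements of `S` in the window. -/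
noncomputable def Q (n : ℕ) (S : Set ℕ) : ℕ := ((W n).filter (fun x => x ∈ S)).card

/-- The expected number of elements in the window. -/
noncomputable def E (n : ℕ) : ℝ := (1 + Nat.totient n) / (2 * Real.log n)

/-- The price of one exception. -/
noncomputable def u (k : ℕ) : ℝ :=
  Real.exp (-Real.eulerMascheroniConstant) * 2 ^ k / (2 * Real.log 2 * k * Real.log k)

/-- The price of the exceptions and the entropy budget. -/
theorem result (z : ℕ → ℕ) (hs : ∀ η : ℝ, 0 < η → ∀ᶠ k : ℕ in atTop, (z k : ℝ) ≤ η * k) :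
    (Low (pr z) W Q E ∧ High (pr z) W Q E) ∧
    (∀ δ ε : ℝ, 0 < δ → 0 < ε → ∀ᶠ k : ℕ in atTop, ∀ M : ℕ, 1 ≤ M → (M : ℝ) ≤ 2 ^ ((1 - δ) * (k : ℝ)) →
      (1 - ε) * (M * u k) ≤ cost E (block k) M ∧ cost E (block k) M ≤ (1 + ε) * (M * u k)) ∧
    (∀ δ : ℝ, 0 < δ → ∀ (d : ℕ → ℝ) (M : ℕ → ℕ), (∀ k, 0 ≤ d k) → (∀ k, 1 ≤ M k ∧ (M k : ℝ) ≤ 2 ^ ((1 - δ) * (k : ℝ))) →
      (Summable (fun k : ℕ => d k * (k * Real.log k) / (2 ^ k * M k)) ↔
        ∀ ε : ℝ, 0 < ε → Few (pr z) W d M (fun n S => ε * E n ≤ |(Q n S : ℝ) - E n|)) ∧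
      (∀ j : ℕ, Summable (fun k : ℕ => d k * (k * Real.log k) / (2 ^ k * M k)) ↔ Few (pr z) W d M (fun n S => Q n S ≤ j)) ∧
      (¬ Summable (fun k : ℕ => d k * (k * Real.log k) / (2 ^ k * M k)) → Often (pr z) W d M (fun n S => Q n S = 0))) := by
  have h1 := tot_wins.elem hs tot_asy
  have eW : (fun n : ℕ => Ico (n ^ 2 + 1) (tv n)) = W := by
    funext n
    ext x
    unfold W tv
    rw [mem_Ico, mem_Ioc]
    omega
  have eQ : (fun n : ℕ => els (Ico (n ^ 2 + 1) (tv n))) = Q := by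
    funext n S
    have h2 : Ico (n ^ 2 + 1) (tv n) = W n := congrFun eW n
    unfold els Q
    rw [h2]
  rw [eW, eQ] at h1
  have hcost : ∀ δ ε : ℝ, 0 < δ → 0 < ε → ∀ᶠ k : ℕ in atTop, ∀ M : ℕ, 1 ≤ M → (M : ℝ) ≤ 2 ^ ((1 - δ) * (k : ℝ)) →
      (1 - ε) * (M * u k) ≤ cost E (block k) M ∧ cost E (block k) M ≤ (1 + ε) * (M * u k) :=
    fun δ ε hδ hε => cost_law hε hδ
  refine ⟨⟨h1.2.1, h1.2.2⟩, hcost, fun δ hδ d M hd hM => ?_⟩
  have hM2 : ∀ k, 1 ≤ M k ∧ M k ≤ 2 ^ k := by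
    intro k
    refine ⟨(hM k).1, ?_⟩
    have h2 : (M k : ℝ) ≤ 2 ^ k := by
      refine (hM k).2.trans ?_
      rw [← Real.rpow_natCast 2 k]
      apply Real.rpow_le_rpow_of_exponent_le (by norm_num)
      have : (0 : ℝ) ≤ k := Nat.cast_nonneg k
      nlinarith
    exact_mod_cast h2
  obtain ⟨a, ha⟩ : ∃ a : ℝ, a = Real.exp (-Real.eulerMascheroniConstant) / (2 * Real.log 2) := ⟨_, rfl⟩
  have hl2 : 0 < Real.log 2 := Real.log_pos (by norm_num)
  have ha0 : 0 < a := by rw [ha]; positivity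
  have h3 : Summable (fun k : ℕ => d k * (k * Real.log k) / (2 ^ k * M k)) ↔
      Summable (fun k : ℕ => d k / cost E (block k) (M k)) := by
    have h4 := summable_iff_of hd (U := fun k => cost E (block k) (M k))
      (U' := fun k => 2 ^ k * M k / (k * Real.log k)) (c := 1 / 2 * a) (C := 3 / 2 * a) (by positivity) (by positivity) (by
        filter_upwards [hcost δ (1 / 2) hδ (by norm_num), eventually_ge_atTop 2] with k hk hk2
        obtain ⟨h5, h6⟩ := hk (M k) (hM k).1 (hM k).2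
        have hk0 : (2 : ℝ) ≤ k := by exact_mod_cast hk2
        have hlk : 0 < Real.log (k : ℝ) := Real.log_pos (by linarith)
        have hM0 : (1 : ℝ) ≤ M k := by exact_mod_cast (hM k).1
        have e : (M k : ℝ) * u k = a * (2 ^ k * M k / (k * Real.log k)) := by
          unfold u
          rw [ha]
          field_simp
        rw [e] at h5 h6
        refine ⟨by positivity, by linarith, by linarith⟩)
    rw [h4]
    have e : (fun k : ℕ => d k / (2 ^ k * (M k : ℝ) / (k * Real.log k))) =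
        (fun k : ℕ => d k * (k * Real.log k) / (2 ^ k * M k)) := by
      funext k
      rw [div_div_eq_mul_div]
    rw [e]
  rw [h3]
  exact h1.1 d M hd hM2

end Pool.Agent.Results.MP_36c81c_nt.FailureBudget
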