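import Mathlib
import Pool.Agent.H373R2.T4.FirstG
import Pool.Agent.H373R2.T4.DivB
import Pool.Agent.H902R3.Task469C

/-!
# Short gaps from squares to the next prime in every residue class

`a(n)` is the distance from `n²` to the next prime; the question is whether `a(n) ≤ 1 + φ(n)`.
We show that for every `1/2 < θ < 1` at least the proportion `θ/4` of the members `n` of every
residue class satisfies `a(n) ≤ n ^ θ`, and also `a(n) ≤ φ(n)`. In particular the inequality holds
for a proportion of almost one quarter of the multiples of any integer `Q`, where `φ(n) / n` is at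
most `φ(Q) / Q`, and for one eighth of them the gap is at most `n ^ (1/2 + ε)`. More precisely, for
every length `H` between `x ^ θ` and `c x` the intervals `(n², n² + H]`, `n = q m + r`, contain
`≫ H / log x` primes for at least `(log H / (4 log x) - ε) x` of the `m ≤ x`.

The first moment (primes with small fractional part of a multiple of `√p`, shifted) is the theorem
`Pool.Agent.H373R2.T4.firstShort_g` of the starting library; the upper bound for a single interval is
the Brun-Titchmarsh inequality with the constant `2` (`Pool.Agent.H902R3.C469.bt2`).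
-/

set_option autoImplicit false

open Finset Filter Polynomial

namespace Pool.Agent.Results.MP_36c81c_nt.HalfPowerGaps

/-- `a(n) = q(n) - n²`, where `q(n)` is the least prime greater than `n²`. -/
noncomputable def a (n : ℕ) : ℕ := sInf {p | Nat.Prime p ∧ n ^ 2 < p} - n ^ 2

/-- the number of primes in `(n², n² + H]` -/
def primes (n H : ℕ) : ℕ := ((Ioc (n ^ 2) (n ^ 2 + H)).filter Nat.Prime).card

theorem a_le {n H : ℕ} (h : 0 < primes n H) : a n ≤ H := by
  unfold primes at h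
  rw [card_pos] at h
  obtain ⟨p, hp⟩ := h
  rw [mem_filter, mem_Ioc] at hp
  have h1 : sInf {p | Nat.Prime p ∧ n ^ 2 < p} ≤ p := Nat.sInf_le ⟨hp.2, hp.1.1⟩
  unfold a
  omega

theorem count_eq (n H : ℕ) : ((Icc 1 H).filter fun u => (u + n ^ 2).Prime).card = primes n H := by
  unfold primes
  apply card_bij (fun u _ => u + n ^ 2)
  · intro u hu
    rw [mem_filter, mem_Icc] at hu
    rw [mem_filter, mem_Ioc]
    exact ⟨by omega, hu.2⟩
  · intro u _ v _ h
    exact Nat.add_right_cancel h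
  · intro p hp
    rw [mem_filter, mem_Ioc] at hp
    refine ⟨p - n ^ 2, ?_, by omega⟩
    rw [mem_filter, mem_Icc]
    have : p - n ^ 2 + n ^ 2 = p := by omega
    rw [this]
    exact ⟨by omega, hp.2⟩

theorem le_totient (n : ℕ) : n ≤ n.divisors.card * Nat.totient n := by
  rcases Nat.eq_zero_or_pos n with rfl | hn
  · simp
  calc n = ∑ d ∈ n.divisors, Nat.totient d := (Nat.sum_totient n).symm
    _ ≤ ∑ _d ∈ n.divisors, Nat.totient n := by
        apply sum_le_sum
        intro d hd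
        exact Nat.le_of_dvd (Nat.totient_pos.mpr hn)
          (Nat.totient_dvd_of_dvd (Nat.dvd_of_mem_divisors hd))
    _ = _ := by rw [sum_const, smul_eq_mul]

/-- `n ^ θ ≤ φ(n)` for large `n` -/
theorem totient_ge {θ : ℝ} (hθ : θ < 1) : ∃ n₀ : ℕ, ∀ n : ℕ, n₀ ≤ n →
    (n : ℝ) ^ θ ≤ (Nat.totient n : ℝ) := by
  obtain ⟨C, hC, hd⟩ := Pool.Agent.H373R2.T4.DivB.div_bound (δ := (1 - θ) / 2) (by linarith)
  have hl : Tendsto (fun N : ℕ => (N : ℝ)) atTop atTop := tendsto_natCast_atTop_atTop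
  have h1 : Tendsto (fun N : ℕ => (N : ℝ) ^ ((1 - θ) / 2)) atTop atTop :=
    (tendsto_rpow_atTop (by linarith)).comp hl
  obtain ⟨n₀, hn₀⟩ := eventually_atTop.1 (h1.eventually_ge_atTop C)
  refine ⟨max n₀ 1, fun n hn => ?_⟩
  have hn1 : 1 ≤ n := le_trans (le_max_right _ _) hn
  have hC2 := hn₀ n (le_trans (le_max_left _ _) hn)
  have hn0 : (0 : ℝ) < n := by exact_mod_cast hn1
  have h2 := hd n (by omega)
  have h3 : (n : ℝ) ≤ (n.divisors.card : ℝ) * Nat.totient n := by exact_mod_cast le_totient n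
  have hp : (0 : ℝ) < (n : ℝ) ^ ((1 - θ) / 2) := Real.rpow_pos_of_pos hn0 _
  have ht : (0 : ℝ) ≤ (Nat.totient n : ℝ) := Nat.cast_nonneg _
  have h4 : (n : ℝ) ≤ (n : ℝ) ^ (1 - θ) * Nat.totient n := by
    calc (n : ℝ) ≤ (n.divisors.card : ℝ) * Nat.totient n := h3
      _ ≤ (C * (n : ℝ) ^ ((1 - θ) / 2)) * Nat.totient n := mul_le_mul_of_nonneg_right h2 ht
      _ ≤ ((n : ℝ) ^ ((1 - θ) / 2) * (n : ℝ) ^ ((1 - θ) / 2)) * Nat.totient n := by
          apply mul_le_mul_of_nonneg_right _ ht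
          exact mul_le_mul_of_nonneg_right hC2 hp.le
      _ = _ := by
          rw [← Real.rpow_add hn0]
          congr 2
          ring
  have h5 : (n : ℝ) ^ (1 - θ) * (n : ℝ) ^ θ = n := by
    rw [← Real.rpow_add hn0]
    simp
  have h6 : (0 : ℝ) < (n : ℝ) ^ (1 - θ) := Real.rpow_pos_of_pos hn0 _
  nlinarith

/-- long enough windows contain primes for a proportion `log H / (4 log x)` of the members of a
residue class -/
theorem windows (q r : ℕ) (hq : 1 ≤ q) {θ : ℝ} (hθ0 : 1 / 2 < θ) (hθ1 : θ < 1) {ε : ℝ}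
    (hε : 0 < ε) : ∃ κ c : ℝ, 0 < κ ∧ 0 < c ∧ c ≤ 1 ∧ ∃ x₀ : ℕ, ∀ x : ℕ, x₀ ≤ x → ∀ H : ℕ,
      (x : ℝ) ^ θ ≤ H → (H : ℝ) ≤ c * x →
      (Real.log H / (4 * Real.log x) - ε) * x ≤
        (((Icc 1 x).filter fun m => κ * (H / Real.log x) ≤ (primes (q * m + r) H : ℝ)).card : ℝ) := by
  classical
  set f : ℕ[X] := (C q * X + C r) ^ 2 with hf
  have hdeg : f.natDegree = 2 := by
    rw [hf, natDegree_pow, natDegree_linear (by omega)]
  obtain ⟨c, hc, x₁, h1⟩ := Pool.Agent.H373R2.T4.firstShort_g f (by rw [hdeg]) ((1 - θ) / 2)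
    (by linarith) (by linarith) (by rw [hdeg]; push_cast; linarith)
    (by rw [hdeg]; push_cast; linarith) (min ε 1) (by positivity)
  rw [hdeg] at h1
  obtain ⟨Y₀, hY₀, hBT⟩ := Pool.Agent.H902R3.C469.bt2 (min ε 1) (by positivity)
  set e := min ε 1 with he
  have he0 : 0 < e := by positivity
  have heε : e ≤ ε := min_le_left _ _
  have he1 : e ≤ 1 := min_le_right _ _
  have hl : Tendsto (fun N : ℕ => (N : ℝ)) atTop atTop := tendsto_natCast_atTop_atTop
  have h2 : Tendsto (fun N : ℕ => (N : ℝ) ^ θ) atTop atTop :=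
    (tendsto_rpow_atTop (by linarith)).comp hl
  obtain ⟨x₂, hx₂⟩ := eventually_atTop.1 (h2.eventually_ge_atTop (Y₀ : ℝ))
  refine ⟨e, min c 1, he0, by positivity, min_le_right _ _, x₁ + x₂ + 3, fun x hx H hH1 hH2 => ?_⟩
  have hx3 : (3 : ℝ) ≤ x := by exact_mod_cast (by omega : 3 ≤ x)
  have hx0 : (0 : ℝ) < x := by linarith
  have hL : 0 < Real.log x := Real.log_pos (by linarith)
  have hHY : Y₀ ≤ H := by
    have := (hx₂ x (by omega)).trans hH1
    exact_mod_cast this
  have hH2' : (2 : ℝ) ≤ H := by exact_mod_cast (hY₀.trans hHY)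
  have hH0 : (0 : ℝ) < H := by linarith
  have hLH : 0 < Real.log H := Real.log_pos (by linarith)
  have hHx : (H : ℝ) ≤ x := hH2.trans (by
    have : min c 1 ≤ 1 := min_le_right _ _
    nlinarith)
  have hLL : Real.log H ≤ Real.log x := Real.log_le_log hH0 hHx
  have h3 := h1 x (by omega) H (by
    have : ((2 : ℕ) : ℝ) - 1 - ((2 : ℕ) : ℝ) * ((1 - θ) / 2) = θ := by push_cast; ring
    rw [this]; exact hH1) (by
    simp only [Nat.add_one_sub_one, pow_one]
    exact hH2.trans (mul_le_mul_of_nonneg_right (min_le_left _ _) hx0.le))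
  have h4 : ∀ m ∈ Icc 1 x, (#{u ∈ Icc 1 H | (u + f.eval m).Prime} : ℝ) =
      (primes (q * m + r) H : ℝ) := by
    intro m _
    have : f.eval m = (q * m + r) ^ 2 := by rw [hf]; simp
    rw [this, count_eq]
  rw [sum_congr rfl h4] at h3
  set G := (Icc 1 x).filter fun m => e * (H / Real.log x) ≤ (primes (q * m + r) H : ℝ) with hG
  have h5 : ∀ m : ℕ, (primes (q * m + r) H : ℝ) ≤ (2 + e) * H / Real.log H := fun m =>
    hBT ((q * m + r) ^ 2) H hHY
  have h6 : ∑ m ∈ Icc 1 x, (primes (q * m + r) H : ℝ) ≤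
      (G.card : ℝ) * ((2 + e) * H / Real.log H) + x * (e * (H / Real.log x)) := by
    rw [← sum_filter_add_sum_filter_not (Icc 1 x)
      (fun m => e * (H / Real.log x) ≤ (primes (q * m + r) H : ℝ))]
    apply add_le_add
    · calc _ ≤ ∑ _m ∈ G, ((2 + e) * H / Real.log H) := sum_le_sum fun m _ => h5 m
        _ = _ := by rw [sum_const, nsmul_eq_mul]
    · calc _ ≤ ∑ _m ∈ (Icc 1 x).filter (fun m => ¬ e * (H / Real.log x) ≤
            (primes (q * m + r) H : ℝ)), (e * (H / Real.log x)) := by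
            apply sum_le_sum
            intro m hm
            rw [mem_filter] at hm
            exact (not_le.1 hm.2).le
        _ = (((Icc 1 x).filter (fun m => ¬ e * (H / Real.log x) ≤
            (primes (q * m + r) H : ℝ))).card : ℝ) * (e * (H / Real.log x)) := by
            rw [sum_const, nsmul_eq_mul]
        _ ≤ _ := by
            apply mul_le_mul_of_nonneg_right _ (by positivity)
            have := card_filter_le (Icc 1 x) (fun m => ¬ e * (H / Real.log x) ≤
              (primes (q * m + r) H : ℝ))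
            rw [Nat.card_Icc] at this
            exact_mod_cast this
  have h7 := h3.trans h6
  -- multiply by `log H / H`
  have h8 : (1 - e) * (x * (Real.log H / (2 * Real.log x))) ≤
      (G.card : ℝ) * (2 + e) + x * (e * (Real.log H / Real.log x)) := by
    have h9 := mul_le_mul_of_nonneg_right h7 (show 0 ≤ Real.log H / H by positivity)
    have e1 : (1 - e) * (x * H / (((2 : ℕ) : ℝ) * Real.log x)) * (Real.log H / H) =
        (1 - e) * (x * (Real.log H / (2 * Real.log x))) := by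
      push_cast
      field_simp
    have e2 : ((G.card : ℝ) * ((2 + e) * H / Real.log H) + x * (e * (H / Real.log x))) *
        (Real.log H / H) = (G.card : ℝ) * (2 + e) + x * (e * (Real.log H / Real.log x)) := by
      field_simp
    rw [e1, e2] at h9
    exact h9
  set t := Real.log H / Real.log x with ht
  have ht0 : 0 ≤ t := by positivity
  have ht1 : t ≤ 1 := (div_le_one hL).2 hLL
  have e3 : Real.log H / (2 * Real.log x) = t / 2 := by rw [ht]; field_simp
  have e4 : Real.log H / (4 * Real.log x) = t / 4 := by rw [ht]; field_simp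
  rw [e3] at h8
  rw [e4]
  by_contra hcon
  rw [not_le] at hcon
  have h10 : (G.card : ℝ) * (2 + e) < (t / 4 - ε) * x * (2 + e) :=
    mul_lt_mul_of_pos_right hcon (by linarith)
  have h11 : (1 - e) * (x * (t / 2)) < (t / 4 - ε) * x * (2 + e) + x * (e * t) := by linarith
  have h12 : (1 - e) * (t / 2) < (t / 4 - ε) * (2 + e) + e * t := by
    by_contra h13
    rw [not_lt] at h13
    have := mul_le_mul_of_nonneg_left h13 hx0.le
    linarith
  nlinarith

/-- the main theorem -/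
theorem result (q r : ℕ) (hq : 1 ≤ q) (θ ε : ℝ) (hθ0 : 1 / 2 < θ) (hθ1 : θ < 1) (hε : 0 < ε) :
    (∃ κ c : ℝ, 0 < κ ∧ 0 < c ∧ ∃ x₀ : ℕ, ∀ x : ℕ, x₀ ≤ x → ∀ H : ℕ,
      (x : ℝ) ^ θ ≤ H → (H : ℝ) ≤ c * x →
      (Real.log H / (4 * Real.log x) - ε) * x ≤
        (((Icc 1 x).filter fun m =>
          κ * (H / Real.log x) ≤ (primes (q * m + r) H : ℝ)).card : ℝ)) ∧
    ∃ x₀ : ℕ, ∀ x : ℕ, x₀ ≤ x → (θ / 4 - ε) * x ≤
      (((Icc 1 x).filter fun m => (a (q * m + r) : ℝ) ≤ ((q * m + r : ℕ) : ℝ) ^ θ ∧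
        a (q * m + r) ≤ Nat.totient (q * m + r)).card : ℝ) := by
  refine ⟨?_, ?_⟩
  · obtain ⟨κ, c, h1, h2, -, h3⟩ := windows q r hq hθ0 hθ1 hε
    exact ⟨κ, c, h1, h2, h3⟩
  -- a slightly smaller exponent
  obtain ⟨θ', hθ'0, hθ'1⟩ : ∃ θ' : ℝ, max (1 / 2) (θ - ε) < θ' ∧ θ' < θ :=
    exists_between (max_lt hθ0 (by linarith))
  have hθ'2 : 1 / 2 < θ' := (le_max_left _ _).trans_lt hθ'0
  have hθ'3 : θ - ε < θ' := (le_max_right _ _).trans_lt hθ'0
  obtain ⟨κ, c, hκ, hc, hc1, x₁, h1⟩ := windows q r hq hθ'2 (by linarith) (ε := ε / 4) (by linarith)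
  obtain ⟨n₀, hn₀⟩ := totient_ge hθ1
  have hl : Tendsto (fun N : ℕ => (N : ℝ)) atTop atTop := tendsto_natCast_atTop_atTop
  -- conditions on `x`
  have t1 : Tendsto (fun N : ℕ => (N : ℝ) ^ (1 - θ')) atTop atTop :=
    (tendsto_rpow_atTop (by linarith)).comp hl
  have t2 : Tendsto (fun N : ℕ => (N : ℝ) ^ (θ - θ')) atTop atTop :=
    (tendsto_rpow_atTop (by linarith)).comp hl
  obtain ⟨x₂, hx₂⟩ := eventually_atTop.1 (t1.eventually_ge_atTop (2 / c))
  set ε' : ℝ := min (ε / 4) 1 with hε'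
  have hε'0 : 0 < ε' := by positivity
  have hε'1 : ε' ≤ 1 := min_le_right _ _
  have hε'2 : ε' ≤ ε / 4 := min_le_left _ _
  obtain ⟨x₃, hx₃⟩ := eventually_atTop.1 (t2.eventually_ge_atTop (2 / ε'))
  obtain ⟨x₄, hx₄⟩ := eventually_atTop.1 (hl.eventually_ge_atTop ((n₀ : ℝ) / ε'))
  refine ⟨x₁ + x₂ + x₃ + x₄ + 3, fun x hx => ?_⟩
  have hx3 : (3 : ℝ) ≤ x := by exact_mod_cast (by omega : 3 ≤ x)
  have hx0 : (0 : ℝ) < x := by linarith
  have hL : 0 < Real.log x := Real.log_pos (by linarith)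
  set H : ℕ := ⌈(x : ℝ) ^ θ'⌉₊ with hH
  have hp1 : (1 : ℝ) ≤ (x : ℝ) ^ θ' := Real.one_le_rpow (by linarith) (by linarith)
  have hHge : (x : ℝ) ^ θ' ≤ H := Nat.le_ceil _
  have hHle : (H : ℝ) ≤ 2 * (x : ℝ) ^ θ' := by
    have := (Nat.ceil_lt_add_one (show 0 ≤ (x : ℝ) ^ θ' by positivity)).le
    linarith
  have hHx : (H : ℝ) ≤ c * x := by
    have h2 := hx₂ x (by omega)
    rw [div_le_iff₀ hc] at h2
    have h3 : (x : ℝ) ^ (1 - θ') * (x : ℝ) ^ θ' = x := by
      rw [← Real.rpow_add hx0]; simp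
    calc (H : ℝ) ≤ 2 * (x : ℝ) ^ θ' := hHle
      _ ≤ ((x : ℝ) ^ (1 - θ') * c) * (x : ℝ) ^ θ' :=
          mul_le_mul_of_nonneg_right h2 (by linarith)
      _ = c * ((x : ℝ) ^ (1 - θ') * (x : ℝ) ^ θ') := by ring
      _ = c * x := by rw [h3]
  have h4 := h1 x (by omega) H hHge hHx
  have hH0 : (0 : ℝ) < H := by linarith
  have hlogH : θ' * Real.log x ≤ Real.log H := by
    rw [← Real.log_rpow hx0]
    exact Real.log_le_log (by positivity) hHge
  have h5 : θ' / 4 ≤ Real.log H / (4 * Real.log x) := by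
    rw [le_div_iff₀ (by positivity)]
    linarith
  set G := (Icc 1 x).filter fun m => κ * (H / Real.log x) ≤ (primes (q * m + r) H : ℝ) with hG
  set F := (Icc 1 x).filter fun m => (a (q * m + r) : ℝ) ≤ ((q * m + r : ℕ) : ℝ) ^ θ ∧
        a (q * m + r) ≤ Nat.totient (q * m + r) with hF
  have h6 : G ⊆ F ∪ Icc 1 ⌊ε' * x⌋₊ := by
    intro m hm
    rw [hG, mem_filter, mem_Icc] at hm
    rw [mem_union]
    by_cases hmx : (m : ℝ) ≤ ε' * x
    · right
      rw [mem_Icc]
      exact ⟨hm.1.1, Nat.le_floor hmx⟩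
    · left
      rw [not_le] at hmx
      have hprim : 0 < primes (q * m + r) H := by
        have : (0 : ℝ) < (primes (q * m + r) H : ℝ) := lt_of_lt_of_le (by positivity) hm.2
        exact_mod_cast this
      have ha := a_le hprim
      set n := q * m + r with hn
      have hmn : m ≤ n := by
        rw [hn]
        nlinarith [Nat.zero_le r]
      have hmn' : (m : ℝ) ≤ n := by exact_mod_cast hmn
      have hm0 : (0 : ℝ) < m := by
        have : 0 < ε' * x := by positivity
        linarith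
      have hn0 : (0 : ℝ) < n := by linarith
      have hnn : n₀ ≤ n := by
        have h7 := hx₄ x (by omega)
        rw [div_le_iff₀ hε'0] at h7
        have : (n₀ : ℝ) ≤ n := by linarith
        exact_mod_cast this
      have hpow : (H : ℝ) ≤ (n : ℝ) ^ θ := by
        have h8 := hx₃ x (by omega)
        rw [div_le_iff₀ hε'0] at h8
        have h9 : (x : ℝ) ^ (θ - θ') * (x : ℝ) ^ θ' = (x : ℝ) ^ θ := by
          rw [← Real.rpow_add hx0]; ring_nf
        have h10 : ε' ≤ ε' ^ θ := by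
          calc ε' = ε' ^ (1 : ℝ) := (Real.rpow_one _).symm
            _ ≤ ε' ^ θ := Real.rpow_le_rpow_of_exponent_ge hε'0 hε'1 hθ1.le
        calc (H : ℝ) ≤ 2 * (x : ℝ) ^ θ' := hHle
          _ ≤ ((x : ℝ) ^ (θ - θ') * ε') * (x : ℝ) ^ θ' :=
              mul_le_mul_of_nonneg_right h8 (by linarith)
          _ = ε' * ((x : ℝ) ^ (θ - θ') * (x : ℝ) ^ θ') := by ring
          _ = ε' * (x : ℝ) ^ θ := by rw [h9]
          _ ≤ ε' ^ θ * (x : ℝ) ^ θ := mul_le_mul_of_nonneg_right h10 (by positivity)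
          _ = (ε' * x) ^ θ := (Real.mul_rpow hε'0.le hx0.le).symm
          _ ≤ (n : ℝ) ^ θ := Real.rpow_le_rpow (by positivity) (by linarith) (by linarith)
      rw [hF, mem_filter, mem_Icc]
      have ha' : (a n : ℝ) ≤ H := by exact_mod_cast ha
      refine ⟨hm.1, ha'.trans hpow, ?_⟩
      have h11 := (ha'.trans hpow).trans (hn₀ n hnn)
      exact_mod_cast h11
  have h7 : (G.card : ℝ) ≤ (F.card : ℝ) + ε' * x := by
    have h8 : G.card ≤ F.card + ⌊ε' * x⌋₊ := by
      refine (card_le_card h6).trans ((card_union_le _ _).trans ?_)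
      rw [Nat.card_Icc]
      omega
    have h9 : (⌊ε' * x⌋₊ : ℝ) ≤ ε' * x := Nat.floor_le (by positivity)
    have h10 : (G.card : ℝ) ≤ (F.card : ℝ) + ⌊ε' * x⌋₊ := by exact_mod_cast h8
    linarith
  nlinarith

end Pool.Agent.Results.MP_36c81c_nt.HalfPowerGaps
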