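import Pool.Agent.Q167.SQ.G

/-!
# Gaps after squares in Cramér's model for every order of independence

In Cramér's random model every integer `n ≥ 3` belongs to the random set `A` with probability
`1 / log n`, and the events `n ∈ A` are independent. In the model with independence of order `κ`
only those sets `T` of events have to be independent whose number of elements is at most `κ n` for
all `n ∈ T`. Let `a n` be the distance from `n ^ 2` to the next element of `A`.

(1) Independence of order `k ≥ 2` for a fixed `k`, and `1 ≤ w n ≤ 2 n`: if the series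
    `∑ (log n / w n) ^ ⌊k / 2⌋` converges, then in every model almost surely `a n ≤ w n` for all
    large `n`; if it diverges, then in some model almost surely `a n > w n` infinitely often.
(2) For nondecreasing `κ`: in every model of order `κ` almost surely `a n ≤ 1 + φ n` for all large
    `n`, if and only if `κ n ≥ 4` for all large `n`.
(3) The sharp law of the largest values of `a n` if `κ n / log log n → ∞`.
-/

set_option autoImplicit false

namespace Pool.Agent.Results.MP_36c81c_nt.OrdersOfIndependence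

open MeasureTheory Filter Topology

/-- Cramér's model with independence of order `κ`: `E n` is the event that the integer `n` belongs
to the random set. For every finite set `T` of integers `n ≥ 3` with at most `κ n` elements for
all `n ∈ T`, the probability that `T` is contained in the random set is `∏ 1 / log n`. -/
structure CramerModel {Ω : Type} [MeasurableSpace Ω] (P : Measure Ω) (κ : ℕ → ℕ)
    (E : ℕ → Set Ω) : Prop where
  meas : ∀ n, MeasurableSet (E n)
  indep : ∀ T : Finset ℕ, (∀ n ∈ T, 3 ≤ n ∧ T.card ≤ κ n) →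
    P (⋂ n ∈ T, E n) = ENNReal.ofReal (∏ n ∈ T, 1 / Real.log n)

/-- In every model of order `κ` the random set `{n | ω ∈ E n}` has the property `Q` almost
surely. -/
def InEveryModel (κ : ℕ → ℕ) (Q : Set ℕ → Prop) : Prop :=
  ∀ (Ω : Type) [MeasurableSpace Ω] (P : Measure Ω) [IsProbabilityMeasure P] (E : ℕ → Set Ω),
    CramerModel P κ E → ∀ᵐ ω ∂P, Q {n | ω ∈ E n}

/-- In some model of order `κ` the random set `{n | ω ∈ E n}` has the property `Q` almost
surely. -/
def InSomeModel (κ : ℕ → ℕ) (Q : Set ℕ → Prop) : Prop :=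
  ∃ (Ω : Type) (_ : MeasurableSpace Ω) (P : Measure Ω) (_ : IsProbabilityMeasure P)
    (E : ℕ → Set Ω), CramerModel P κ E ∧ ∀ᵐ ω ∂P, Q {n | ω ∈ E n}

/-- `a n ≤ t`: some element `q > n ^ 2` of `A` satisfies `q ≤ n ^ 2 + t`. -/
def GapLE (A : Set ℕ) (n : ℕ) (t : ℝ) : Prop :=
  ∃ q ∈ A, n ^ 2 < q ∧ (q : ℝ) ≤ (n : ℝ) ^ 2 + t

/-- The integer `m = min (⌊κ (n ^ 2) / 2⌋, ⌊log n⌋)`. -/
noncomputable def halfOrder (κ : ℕ → ℕ) (n : ℕ) : ℕ := min (κ (n ^ 2) / 2) ⌊Real.log n⌋₊

/-- The gap function `(2 m / e) n ^ (1 / m) log n` with `m = halfOrder κ n`. -/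
noncomputable def gapFunction (κ : ℕ → ℕ) (n : ℕ) : ℝ :=
  2 * (halfOrder κ n : ℝ) / Real.exp 1 * (n : ℝ) ^ (1 / (halfOrder κ n : ℝ)) * Real.log n

lemma gapFunction_eq {κ : ℕ → ℕ} {n : ℕ} (hn : 1 ≤ n) : gapFunction κ n = Q167.SQ.gS κ n := by
  have hn0 : (0:ℝ) < n := by exact_mod_cast hn
  have h1 : halfOrder κ n = Q167.LI.ord (fun n => κ (n ^ 2)) n := rfl
  unfold gapFunction Q167.SQ.gS Q167.SQ.HH
  rw [h1, Real.rpow_def_of_pos hn0]
  have h2 : Real.log (n : ℝ) * (1 / (Q167.LI.ord (fun n => κ (n ^ 2)) n : ℝ)) =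
      Real.log n / (Q167.LI.ord (fun n => κ (n ^ 2)) n : ℝ) := by ring
  rw [h2]
  ring

lemma fast {κ : ℕ → ℕ}
    (h : Tendsto (fun n : ℕ => (κ n : ℝ) / Real.log (Real.log n)) atTop atTop) :
    Q167.LI.Fast κ := by
  intro C
  have hll : Tendsto (fun n : ℕ => Real.log (Real.log (n : ℝ))) atTop atTop :=
    Real.tendsto_log_atTop.comp Q167.LI.tendsto_log_nat
  filter_upwards [h.eventually_ge_atTop C, hll.eventually_gt_atTop 0] with n h1 h2
  rw [le_div_iff₀ h2] at h1
  exact h1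

lemma some_of {κ : ℕ → ℕ} {Q : Set ℕ → Prop}
    (h : ∃ (Ω : Type) (_ : MeasurableSpace Ω) (P : Measure Ω) (_ : IsProbabilityMeasure P)
      (E : ℕ → Set Ω), (∀ n, MeasurableSet (E n)) ∧
      (∀ T : Finset ℕ, (∀ n ∈ T, 3 ≤ n ∧ T.card ≤ κ n) →
        P (⋂ n ∈ T, E n) = ENNReal.ofReal (∏ n ∈ T, 1 / Real.log n)) ∧
      ∀ᵐ ω ∂P, Q {n | ω ∈ E n}) : InSomeModel κ Q := by
  obtain ⟨Ω, mΩ, P, hP, E, hE, hT, hae⟩ := h
  exact ⟨Ω, mΩ, P, hP, E, ⟨hE, hT⟩, hae⟩

/-- gaps after squares for every order of independence -/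
theorem result :
    (∀ k : ℕ, 2 ≤ k → ∀ w : ℕ → ℕ, (∀ n, 1 ≤ n → 1 ≤ w n ∧ w n ≤ 2 * n) →
      ((Summable fun n : ℕ => (Real.log n / w n) ^ (k / 2)) →
        InEveryModel (fun _ => k) fun A => ∀ᶠ n : ℕ in atTop, GapLE A n (w n)) ∧
      ((¬ Summable fun n : ℕ => (Real.log n / w n) ^ (k / 2)) →
        InSomeModel (fun _ => k) fun A => ∃ᶠ n : ℕ in atTop, ¬ GapLE A n (w n))) ∧
    (∀ κ : ℕ → ℕ, Monotone κ →
      ((InEveryModel κ fun A => ∀ᶠ n : ℕ in atTop, GapLE A n (1 + Nat.totient n)) ↔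
        ∀ᶠ n : ℕ in atTop, 4 ≤ κ n)) ∧
    (∀ κ : ℕ → ℕ, Monotone κ →
      Tendsto (fun n : ℕ => (κ n : ℝ) / Real.log (Real.log n)) atTop atTop →
      (InEveryModel κ fun A => ∀ ε : ℝ, 0 < ε →
        ∀ᶠ n : ℕ in atTop, GapLE A n ((1 + ε) * gapFunction κ n)) ∧
      (InSomeModel κ fun A => ∀ ε : ℝ, 0 < ε →
        ∃ᶠ n : ℕ in atTop, ¬ GapLE A n ((1 - ε) * gapFunction κ n))) := by
  refine ⟨fun k hk w hw => ⟨fun hs => ?_, fun hs => ?_⟩, fun κ hmono => ⟨fun h => ?_, fun h => ?_⟩,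
    fun κ hmono hκ => ⟨?_, ?_⟩⟩
  · intro Ω _ P _ E hM
    have h1 := Q167.SQ.crit_upper P hM.meas hM.indep (m := k / 2) (by omega)
      (Eventually.of_forall fun n => by omega) (fun n hn => (hw n hn).1)
      (fun n hn => (hw n hn).2) hs
    filter_upwards [h1] with ω hω
    filter_upwards [hω] with n hn
    obtain ⟨y, h2, h3, h4⟩ := hn
    exact ⟨y, h4, h2, by exact_mod_cast h3⟩
  · apply some_of
    obtain ⟨Ω, mΩ, P, hP, E, hE, hT, hae⟩ := Q167.SQ.crit_lower (κ := fun _ => k) (m := k / 2)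
      (by omega) (fun n => by omega) (fun n hn => (hw n hn).1) (fun n hn => (hw n hn).2) hs
    refine ⟨Ω, mΩ, P, hP, E, hE, hT, ?_⟩
    filter_upwards [hae] with ω hω
    refine hω.mono ?_
    rintro n hn ⟨q, hq, h1, h2⟩
    exact hn q h1 (by exact_mod_cast h2) hq
  · by_contra hcon
    have hκ3 : ∀ n, κ n ≤ 3 := by
      intro n
      by_contra h1
      apply hcon
      filter_upwards [eventually_ge_atTop n] with y hy
      have := hmono hy
      omega
    obtain ⟨Ω, mΩ, P, hP, E, hE, hT, hae⟩ := Q167.SQ.crit_lower (κ := κ) (m := 1) le_rfl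
      (fun n => by have := hκ3 n; omega) (w := fun n => n) (fun n hn => hn)
      (fun n _ => by omega) (by
        intro hs
        apply Real.not_summable_one_div_natCast
        refine Summable.of_norm_bounded_eventually_nat hs ?_
        filter_upwards [Q167.LI.tendsto_log_nat.eventually_ge_atTop 1] with n hn
        rw [Real.norm_of_nonneg (by positivity), pow_one]
        exact div_le_div_of_nonneg_right hn (Nat.cast_nonneg _))
    have h1 := h Ω P E ⟨hE, hT⟩
    obtain ⟨ω, h2, h3⟩ := (hae.and h1).exists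
    obtain ⟨n, h4, h5, h6⟩ := (h2.and_eventually (h3.and (eventually_ge_atTop 2))).exists
    obtain ⟨q, hq, h7, h8⟩ := h5
    apply h4 q h7 _ hq
    have h9 : (q : ℝ) ≤ ((n ^ 2 + (1 + Nat.totient n) : ℕ) : ℝ) := by
      push_cast
      exact h8
    have h10 : q ≤ n ^ 2 + (1 + Nat.totient n) := by exact_mod_cast h9
    have h11 : Nat.totient n < n := Nat.totient_lt n (by omega)
    omega
  · intro Ω _ P _ E hM
    have h1 := Q167.SQ.crit_upper P hM.meas hM.indep (m := 2) (by omega)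
      (by
        filter_upwards [h] with n hn
        omega) (w := fun n => 1 + Nat.totient n) (fun n _ => by omega)
      (fun n hn => by
        have := Nat.totient_le n
        omega) Q167.SQ.summable_totient
    filter_upwards [h1] with ω hω
    filter_upwards [hω] with n hn
    obtain ⟨y, h2, h3, h4⟩ := hn
    refine ⟨y, h4, h2, ?_⟩
    have h5 : (y : ℝ) ≤ ((n ^ 2 + (1 + Nat.totient n) : ℕ) : ℝ) := by exact_mod_cast h3
    push_cast at h5
    exact h5
  · intro Ω _ P _ E hM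
    have h1 : ∀ᵐ ω ∂P, ∀ k : ℕ, ∀ᶠ n : ℕ in atTop, ∃ y : ℕ, n ^ 2 < y ∧
        (y : ℝ) ≤ (n : ℝ) ^ 2 + (1 + 1 / ((k : ℝ) + 1)) * Q167.SQ.gS κ n ∧ ω ∈ E y := by
      rw [ae_all_iff]
      intro k
      have hk : (0:ℝ) < 1 / ((k : ℝ) + 1) := by positivity
      have hk1 : 1 / ((k : ℝ) + 1) ≤ 1 := by
        rw [div_le_one (by positivity)]
        have : (0:ℝ) ≤ k := Nat.cast_nonneg _
        linarith
      exact Q167.SQ.sq_upper P hM.meas hM.indep hmono (fast hκ) hk hk1
    filter_upwards [h1] with ω hω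
    intro ε hε
    obtain ⟨k, hk⟩ := exists_nat_one_div_lt hε
    filter_upwards [hω k, eventually_ge_atTop 1] with n hn hn1
    obtain ⟨y, h2, h3, h4⟩ := hn
    refine ⟨y, h4, h2, h3.trans ?_⟩
    rw [gapFunction_eq hn1]
    have hG : 0 ≤ Q167.SQ.gS κ n := by
      unfold Q167.SQ.gS Q167.SQ.HH
      have h5 : 0 ≤ Real.log (n : ℝ) := Real.log_nonneg (by exact_mod_cast hn1)
      positivity
    have := mul_le_mul_of_nonneg_right hk.le hG
    linarith
  · apply some_of
    obtain ⟨Ω, mΩ, P, hP, E, hE, hT, hae⟩ := Q167.SQ.sq_lower hmono (fast hκ)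
    refine ⟨Ω, mΩ, P, hP, E, hE, hT, ?_⟩
    filter_upwards [hae] with ω hω
    intro ε hε
    refine ((hω ε hε).and_eventually (eventually_ge_atTop 1)).mono ?_
    rintro n ⟨hn, hn1⟩ ⟨q, hq, h1, h2⟩
    rw [gapFunction_eq hn1] at h2
    exact hn q h1 h2 hq

end Pool.Agent.Results.MP_36c81c_nt.OrdersOfIndependence
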