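import Pool.Agent.Q197.PH.Fail
import Pool.Agent.Q120.MF.Exists

/-!
# The gap from `n²` to the next prime against `1 + φ(n)` in Cramér's random model

`A` is Cramér's random model of the primes: the events `n ∈ A`, `n ≥ 3`, are independent with the probabilities
`1 / log n`. `a A n` is the distance from `n²` to the next element of `A`. Almost surely the inequality of the
question holds for all large `n`, and the largest of the ratios `a(n) / (1 + φ(n))`, `n ≥ N`, is asymptotic to
`2 e^γ log² N log log N / N`. The probability that some `n ≥ N` has `a(n) > δ (1 + φ(n))` is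
`exp (- (δ e^(-γ) / 2 + o(1)) N / (log N log log N))` for every `δ > 0`; `δ = 1` is the inequality of the question.
-/

set_option autoImplicit false

namespace Pool.Agent.Results.MP_36c81c_nt.TotientGapLaw

open MeasureTheory Filter Pool.Agent.Q120.MF
open scoped Topology

/-- the distance from `n²` to the next element of `S` -/
noncomputable def a (S : Set ℕ) (n : ℕ) : ℕ := sInf {m | n ^ 2 < m ∧ m ∈ S} - n ^ 2

/-- the largest ratio `a(n) / (1 + φ(n))` for `n ≥ N` -/
noncomputable def worst (S : Set ℕ) (N : ℕ) : ℝ := sSup {x : ℝ | ∃ n : ℕ, N ≤ n ∧ x = a S n / (1 + Nat.totient n)}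

open Q197.PH

/-- **The law of the gaps after squares against the totient.** -/
theorem result :
    (∃ (Ω : Type) (_ : MeasurableSpace Ω) (μ : Measure Ω) (A : Ω → Set ℕ), IsProbabilityMeasure μ ∧ IsCramer μ A) ∧
    ∀ (Ω : Type) [MeasurableSpace Ω] (μ : Measure Ω) [IsProbabilityMeasure μ] (A : Ω → Set ℕ), IsCramer μ A →
      (∀ᵐ ω ∂μ,
        -- the inequality of the question holds for all large `n`
        (∀ᶠ n : ℕ in atTop, a (A ω) n ≤ 1 + Nat.totient n) ∧
        -- the exact size of the worst ratio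
        (∀ᶠ N : ℕ in atTop, BddAbove {x : ℝ | ∃ n : ℕ, N ≤ n ∧ x = a (A ω) n / (1 + Nat.totient n)}) ∧
        Tendsto (fun N : ℕ => worst (A ω) N * N / (Real.log N ^ 2 * Real.log (Real.log N))) atTop
          (𝓝 (2 * Real.exp Real.eulerMascheroniConstant))) ∧
      -- the probability of a failure beyond `N`
      ∀ δ : ℝ, 0 < δ → Tendsto (fun N : ℕ =>
          Real.log (μ.real {ω | ∃ n : ℕ, N ≤ n ∧ δ * (1 + Nat.totient n) < a (A ω) n}) *
            (Real.log N * Real.log (Real.log N)) / N) atTop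
        (𝓝 (-(δ * Real.exp (-Real.eulerMascheroniConstant) / 2))) := by
  refine ⟨⟨_, _, cramerMeasure, cramerSet, inferInstance, isCramer⟩, ?_⟩
  intro Ω _ μ _ A hA
  refine ⟨?_, ?_⟩
  · have hup : ∀ᵐ ω ∂μ, ∀ k : ℕ, ∀ᶠ n : ℕ in atTop, (Q197.PH.a (A ω) n : ℝ) ≤ (2 + 1 / ((k : ℝ) + 1)) * Real.log n ^ 2 :=
      ae_all_iff.2 (fun k => ae_up hA (by positivity))
    have hlow : ∀ᵐ ω ∂μ, ∀ k : ℕ, ∀ᶠ N : ℕ in atTop, ∃ n : ℕ, N ≤ n ∧ (n : ℝ) ≤ (1 + 1 / ((k : ℝ) + 2)) * N ∧
        (Nat.totient n : ℝ) ≤ (1 + 1 / ((k : ℝ) + 2)) * eg * (n / Real.log (Real.log N)) ∧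
        (2 - 1 / ((k : ℝ) + 2)) * Real.log N ^ 2 < Q197.PH.a (A ω) n :=
      ae_all_iff.2 (fun k => ae_low hA (by positivity) (by
        rw [div_lt_one (by positivity)]
        have : (0 : ℝ) ≤ k := Nat.cast_nonneg k
        linarith))
    filter_upwards [hup, hlow] with ω h1 h2
    have h1' : ∀ ε : ℝ, 0 < ε → ∀ᶠ n : ℕ in atTop, (Q197.PH.a (A ω) n : ℝ) ≤ (2 + ε) * Real.log n ^ 2 := by
      intro ε hε
      obtain ⟨k, hk⟩ := exists_nat_one_div_lt hε
      filter_upwards [h1 k] with n hn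
      refine hn.trans (mul_le_mul_of_nonneg_right (by linarith) (sq_nonneg _))
    have h2' : ∀ ε : ℝ, 0 < ε → ε < 1 → ∀ᶠ N : ℕ in atTop, ∃ n : ℕ, N ≤ n ∧ (n : ℝ) ≤ (1 + ε) * N ∧
        (Nat.totient n : ℝ) ≤ (1 + ε) * eg * (n / Real.log (Real.log N)) ∧ (2 - ε) * Real.log N ^ 2 < Q197.PH.a (A ω) n := by
      intro ε hε hε1
      obtain ⟨k, hk⟩ := exists_nat_one_div_lt hε
      have hk2 : 1 / ((k : ℝ) + 2) ≤ ε := by
        have : 1 / ((k : ℝ) + 2) ≤ 1 / ((k : ℝ) + 1) := one_div_le_one_div_of_le (by positivity) (by linarith)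
        linarith
      filter_upwards [h2 k, loglog_top.eventually_gt_atTop 0] with N ⟨n, e1, e2, e3, e4⟩ e5
      have hN0 : (0 : ℝ) ≤ N := Nat.cast_nonneg N
      have hn0 : (0 : ℝ) ≤ n := Nat.cast_nonneg n
      have he := eg_pos
      refine ⟨n, e1, e2.trans (mul_le_mul_of_nonneg_right (by linarith) hN0), e3.trans ?_, lt_of_le_of_lt ?_ e4⟩
      · exact mul_le_mul_of_nonneg_right (mul_le_mul_of_nonneg_right (by linarith) he.le) (by positivity)
      · exact mul_le_mul_of_nonneg_right (by linarith) (sq_nonneg _)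
    have hlaw := worst_law h1' h2'
    have hupp := upper h1' (show (0 : ℝ) < 1 / 2 by norm_num) (by norm_num)
    have he := eg_pos
    refine ⟨?_, ?_, ?_⟩
    · have hG : Tendsto G atTop (𝓝 0) := by
        have e1 : Tendsto (fun n : ℕ => (Real.log (n : ℝ) / (n : ℝ) ^ (1 / 3 : ℝ)) ^ 3) atTop (𝓝 (0 ^ 3)) :=
          (((isLittleO_log_rpow_atTop (show (0 : ℝ) < 1 / 3 by norm_num)).tendsto_div_nhds_zero).comp
            tendsto_natCast_atTop_atTop).pow 3
        rw [zero_pow (by norm_num)] at e1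
        refine squeeze_zero' (G_pos.mono (fun n hn => hn.le)) ?_ e1
        filter_upwards [log_top'.eventually_gt_atTop 0, eventually_gt_atTop 0] with n e2 e3
        have hn0 : (0 : ℝ) < n := by exact_mod_cast e3
        have e4 : ((n : ℝ) ^ (1 / 3 : ℝ)) ^ 3 = n := by
          rw [← Real.rpow_natCast, ← Real.rpow_mul hn0.le]
          norm_num
        rw [div_pow, e4]
        unfold G
        apply div_le_div_of_nonneg_right _ hn0.le
        have e5 : Real.log (Real.log (n : ℝ)) ≤ Real.log n := (Real.log_le_sub_one_of_pos e2).trans (by linarith)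
        calc Real.log (n : ℝ) ^ 2 * Real.log (Real.log n) ≤ Real.log (n : ℝ) ^ 2 * Real.log n :=
              mul_le_mul_of_nonneg_left e5 (by positivity)
          _ = _ := by ring
      have e1 : Tendsto (fun N => (2 + 1 / 2) / ((1 - 1 / 2) * eg) * G N) atTop (𝓝 ((2 + 1 / 2) / ((1 - 1 / 2) * eg) * 0)) :=
        hG.const_mul _
      rw [mul_zero] at e1
      filter_upwards [hupp, e1.eventually_lt_const (show (0 : ℝ) < 1 by norm_num)] with n e2 e3
      have e4 := (e2 n le_rfl).trans e3.le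
      rw [div_le_one (by positivity)] at e4
      have e5 : (Q197.PH.a (A ω) n : ℝ) ≤ ((1 + Nat.totient n : ℕ) : ℝ) := by push_cast; exact e4
      exact_mod_cast e5
    · filter_upwards [hupp] with N hN
      refine ⟨(2 + 1 / 2) / ((1 - 1 / 2) * eg) * G N, ?_⟩
      rintro x ⟨n, hn, rfl⟩
      exact hN n hn
    · have e1 : 2 / eg = 2 * Real.exp Real.eulerMascheroniConstant := by
        unfold eg
        rw [Real.exp_neg]
        field_simp
      rw [e1] at hlaw
      refine hlaw.congr (fun N => ?_)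
      unfold G
      rw [div_div_eq_mul_div]
      rfl
  · intro δ hδ
    refine (fail_law hA hδ).congr (fun N => ?_)
    unfold g
    rw [div_div_eq_mul_div]
    rfl

end Pool.Agent.Results.MP_36c81c_nt.TotientGapLaw
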